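import Pool.Agent.Q99.HX.Stm
import Pool.Agent.W303.AX.UX1

/-!
# Closure properties of uniform expansions with analytic coefficients (job HX-UA of helper99)
-/

set_option autoImplicit false

namespace Pool.Agent.Q202.HX2

open Finset Filter Topology MeasureTheory
open Pool.Agent.W719.AX (UX cv)
open Pool.Agent.Q99.HX

/-- products -/
theorem ua_mul {E : Type} [NormedAddCommGroup E] [NormedSpace ℂ E] {H H' : ℕ → E → ℂ} {U : Set E}
    (h1 : UA H U) (h2 : UA H' U) : UA (fun N p => H N p * H' N p) U := by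
  obtain ⟨A, hA, hA'⟩ := h1
  obtain ⟨B, hB, hB'⟩ := h2
  refine ⟨cv A B, Pool.Agent.W303.AX.uxmul E H H' A B U hA hB, fun k => ?_⟩
  have e : cv A B k = ∑ i ∈ range (k + 1), fun p => A i p * B (k - i) p := by
    funext p
    simp [cv, Finset.sum_apply]
  rw [e]
  intro z hz
  exact Finset.analyticAt_sum _ fun i _ => (hA' i z hz).mul (hB' (k - i) z hz)

/-- a bounded analytic function -/
theorem ua_const {E : Type} [NormedAddCommGroup E] [NormedSpace ℂ E] {f : E → ℂ} {U : Set E}
    {B : ℝ} (hf : AnalyticOnNhd ℂ f U) (hB : ∀ p ∈ U, ‖f p‖ ≤ B) : UA (fun _ p => f p) U := by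
  refine ⟨fun k p => if k = 0 then f p else 0, fun K => ?_, fun k => ?_⟩
  · rcases Nat.eq_zero_or_pos K with rfl | hK
    · exact ⟨B, Eventually.of_forall fun N p hp => by simpa using hB p hp⟩
    · refine ⟨0, Eventually.of_forall fun N p _ => ?_⟩
      rw [Finset.sum_eq_single_of_mem 0 (Finset.mem_range.2 hK)]
      · simp
      · intro b _ hb
        simp [hb]
  · rcases Nat.eq_zero_or_pos k with rfl | hk
    · simpa using hf
    · have : (fun p : E => if k = 0 then f p else 0) = fun _ => (0 : ℂ) := by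
        funext p; rw [if_neg hk.ne']
      show AnalyticOnNhd ℂ (fun p : E => if k = 0 then f p else 0) U
      rw [this]
      exact analyticOnNhd_const

theorem task_UA : S_UA := by
  refine ⟨fun E _ _ H H' U h1 h2 => ua_mul h1 h2, ?_, ?_, ?_, ?_⟩
  · intro E F _ _ _ _ H φ U V hH hφ hm
    obtain ⟨A, hA, hA'⟩ := hH
    refine ⟨fun k p => A k (φ p), fun K => ?_, fun k => ?_⟩
    · obtain ⟨C, hC⟩ := hA K
      refine ⟨C, hC.mono fun N hN p hp => hN (φ p) (hm hp)⟩
    · exact (hA' k).comp hφ hm
  · intro E _ _ f U B hf hB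
    exact ua_const hf hB
  · intro E _ _ H H' U hH hd
    obtain ⟨A, hA, hA'⟩ := hH
    refine ⟨A, fun K => ?_, hA'⟩
    obtain ⟨C1, h1⟩ := hA K
    obtain ⟨C2, h2⟩ := hd K
    refine ⟨C2 + C1, ?_⟩
    filter_upwards [h1, h2] with N a1 a2 p hp
    have e : H' N p - ∑ k ∈ range K, A k p / (N : ℂ) ^ k =
        (H' N p - H N p) + (H N p - ∑ k ∈ range K, A k p / (N : ℂ) ^ k) := by ring
    rw [e, add_div]
    exact (norm_add_le _ _).trans (add_le_add (a2 p hp) (a1 p hp))
  · intro E ι _ _ s H U
    classical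
    induction s using Finset.induction_on with
    | empty =>
      intro _
      simp only [Finset.prod_empty]
      exact ua_const (f := fun _ => (1 : ℂ)) (B := 1) analyticOnNhd_const (by simp)
    | insert a s ha ih =>
      intro h
      have h1 := h a (Finset.mem_insert_self _ _)
      have h2 := ih fun i hi => h i (Finset.mem_insert_of_mem hi)
      have := ua_mul h1 h2
      simpa only [Finset.prod_insert ha] using this

end Pool.Agent.Q202.HX2
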