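import Pool.Agent.Q99.HX.Stm
import Pool.Agent.Q176.HT.Pre

/-!
# The amplitude of a region to all orders (job HX-PX of helper99)
-/

set_option autoImplicit false

namespace Pool.Agent.Q202.HX2

open Finset Filter Topology MeasureTheory
open Pool.Agent.W719.AX (UX)
open Pool.Agent.Q99.KN (LC bb Gm St S_LC S_GAM)
open Pool.Agent.Q99.HT
open Pool.Agent.Q99.HX
open Pool.Agent.Q176.HT (nz_near lf_near ctr2 ctr5)

/-- the normalised quantum dilogarithm -/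
noncomputable def Gt (s : ℝ) (N : ℕ) (x : ℂ) : ℂ :=
  Gm N (x + s / N) * Complex.exp (-(N * LC x))

theorem mem_Sd {r c e : ℝ} {z : ℂ} (h : ‖z - c‖ ≤ e) (h1 : r + e < c) (h2 : c + e < 1 - r)
    (h3 : e < 1) : z ∈ Sd r := by
  have a1 := abs_le.1 ((Complex.abs_re_le_norm (z - c)).trans h)
  have a2 := (Complex.abs_im_le_norm (z - c)).trans h
  rw [Complex.sub_re, Complex.ofReal_re] at a1
  rw [Complex.sub_im, Complex.ofReal_im, sub_zero] at a2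
  exact ⟨by linarith [a1.1], by linarith [a1.2], a2.trans_lt h3⟩

/-- membership in the strip after a small real shift -/
theorem shift_St {r : ℝ} {x : ℂ} (hx : x ∈ Sd r) {t : ℝ} (ht : |t| ≤ r) : x + t ∈ St := by
  have h1 := hx.1
  have h2 := hx.2.1
  have h3 := abs_le.1 ht
  refine ⟨?_, ?_⟩
  · rw [Complex.add_re, Complex.ofReal_re]; linarith [h3.1]
  · rw [Complex.add_re, Complex.ofReal_re]; linarith [h3.2]

/-- the three arguments of a bracket -/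
theorem args_Sd {r c : ℝ} (hr : 0 < r) (h1 : 32 * r ≤ c)
    (h2 : 32 * r ≤ 1 / 2 - c) {ν ξ : ℂ} (hν : ‖ν - 1 / 2‖ ≤ r / 4) (hξ : ‖ξ - c‖ ≤ 3 * (r / 2)) :
    ν ∈ Sd r ∧ 1 - ν + ξ ∈ Sd r ∧ 1 - ξ ∈ Sd r := by
  have a1 : ‖ν - ((1 / 2 : ℝ) : ℂ)‖ ≤ r / 4 := by push_cast; exact hν
  have a2 : ‖1 - ν + ξ - ((1 / 2 + c : ℝ) : ℂ)‖ ≤ 7 / 4 * r := by
    have e : 1 - ν + ξ - ((1 / 2 + c : ℝ) : ℂ) = (ξ - c) - (ν - 1 / 2) := by push_cast; ring
    rw [e]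
    exact (norm_sub_le _ _).trans (by linarith)
  have a3 : ‖1 - ξ - ((1 - c : ℝ) : ℂ)‖ ≤ 3 * (r / 2) := by
    have e : 1 - ξ - ((1 - c : ℝ) : ℂ) = -(ξ - c) := by push_cast; ring
    rw [e, norm_neg]
    exact hξ
  exact ⟨mem_Sd a1 (by linarith) (by linarith) (by linarith),
    mem_Sd a2 (by linarith) (by linarith) (by linarith),
    mem_Sd a3 (by linarith) (by linarith) (by linarith)⟩

/-- a bracket with shifted lower entry -/
theorem br_eq (hLC : S_LC) (hGAM : S_GAM) {r : ℝ} (hr : 0 < r) {N : ℕ} (hN : 1 ≤ N) {ν ξ : ℂ} {s : ℝ}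
    (h1 : ν ∈ Sd r) (h2 : 1 - ν + ξ ∈ Sd r) (h3 : 1 - ξ ∈ Sd r) (hs : (|s| + 1) / N ≤ r) :
    ((√N : ℝ) : ℂ) * TB N ν (ξ - s / N) * Complex.exp (-(N * LT ν ξ)) =
      Gt 0 N ν * (Gt (-s) N (1 - ν + ξ) * Gt (s - 1 / 2) N (1 - ξ)) := by
  obtain ⟨-, -, -, g4⟩ := hGAM hLC
  have hNr : (0 : ℝ) < N := by exact_mod_cast hN
  have hNc : (N : ℂ) ≠ 0 := by exact_mod_cast hNr.ne'
  have hs1 : |s| / N ≤ r := (div_le_div_of_nonneg_right (by linarith) hNr.le).trans hs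
  have hs2 : |s - 1 / 2| / N ≤ r := by
    refine (div_le_div_of_nonneg_right ?_ hNr.le).trans hs
    refine (abs_sub _ _).trans ?_
    have : |(1 / 2 : ℝ)| = 1 / 2 := abs_of_pos (by norm_num)
    linarith
  -- the two arguments in the denominator
  have m1 : 1 - ν + ξ + ((-s / N : ℝ) : ℂ) ∈ St := shift_St h2 (by
    rw [abs_div, abs_neg, abs_of_pos hNr]; exact hs1)
  have m2 : 1 - ξ + (((s - 1 / 2) / N : ℝ) : ℂ) ∈ St := shift_St h3 (by
    rw [abs_div, abs_of_pos hNr]; exact hs2)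
  have k1 := g4 N _ m1
  have k2 := g4 N _ m2
  have e1 : (1 : ℂ) - (1 - ν + ξ + ((-s / N : ℝ) : ℂ)) = ν - (ξ - s / N) := by
    push_cast; ring
  have e2 : (1 : ℂ) - (1 - ξ + (((s - 1 / 2) / N : ℝ) : ℂ)) = ξ - s / N + 1 / (2 * N) := by
    push_cast
    field_simp
    ring
  rw [e1] at k1
  rw [e2] at k2
  have i1 : (Gm N (ν - (ξ - s / N)))⁻¹ = Gm N (1 - ν + ξ + ((-s / N : ℝ) : ℂ)) :=
    inv_eq_of_mul_eq_one_left k1
  have i2 : (Gm N (ξ - s / N + 1 / (2 * N)))⁻¹ = Gm N (1 - ξ + (((s - 1 / 2) / N : ℝ) : ℂ)) :=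
    inv_eq_of_mul_eq_one_left k2
  -- the exponents
  have hl2 := hLC.2.1
  have l1 : LC (1 - ν + ξ) = -LC (ν - ξ) := by
    have hm : ν - ξ ∈ St := by
      have := h2.1
      have h' := h2.2.1
      rw [Complex.add_re, Complex.sub_re, Complex.one_re] at this h'
      exact ⟨by rw [Complex.sub_re]; linarith, by rw [Complex.sub_re]; linarith⟩
    rw [← hl2 _ hm]
    congr 1
    ring
  have l2 : LC (1 - ξ) = -LC ξ := by
    have hm : ξ ∈ St := by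
      have := h3.1
      have h' := h3.2.1
      rw [Complex.sub_re, Complex.one_re] at this h'
      exact ⟨by linarith, by linarith⟩
    exact hl2 _ hm
  have hsq : ((√N : ℝ) : ℂ) ≠ 0 := by
    have : (0 : ℝ) < √(N : ℝ) := Real.sqrt_pos.2 hNr
    exact_mod_cast this.ne'
  have eT : ((√N : ℝ) : ℂ) * TB N ν (ξ - s / N) =
      Gm N ν * ((Gm N (ν - (ξ - s / N)))⁻¹ * (Gm N (ξ - s / N + 1 / (2 * N)))⁻¹) := by
    unfold TB
    rw [div_eq_mul_inv, mul_inv, mul_inv]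
    rw [show ((√N : ℝ) : ℂ) * (Gm N ν * (((√N : ℝ) : ℂ)⁻¹ * (Gm N (ν - (ξ - s / N)))⁻¹ *
        (Gm N (ξ - s / N + 1 / (2 * N)))⁻¹)) = (((√N : ℝ) : ℂ) * ((√N : ℝ) : ℂ)⁻¹) *
        (Gm N ν * ((Gm N (ν - (ξ - s / N)))⁻¹ * (Gm N (ξ - s / N + 1 / (2 * N)))⁻¹)) by ring]
    rw [mul_inv_cancel₀ hsq, one_mul]
  have eE : Complex.exp (-(N * LT ν ξ)) = Complex.exp (-(N * LC ν)) *
      (Complex.exp (-(N * LC (1 - ν + ξ))) * Complex.exp (-(N * LC (1 - ξ)))) := by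
    rw [← Complex.exp_add, ← Complex.exp_add, l1, l2]
    congr 1
    unfold Pool.Agent.Q99.HT.LT
    ring
  rw [eT, eE, i1, i2]
  unfold Gt
  have z0 : ν + ((0 : ℝ) : ℂ) / N = ν := by simp
  rw [z0]
  have z1 : (((-s / N : ℝ)) : ℂ) = ((-s : ℝ) : ℂ) / N := by push_cast; ring
  have z2 : ((((s - 1 / 2) / N : ℝ)) : ℂ) = ((s - 1 / 2 : ℝ) : ℂ) / N := by push_cast; ring
  rw [z1, z2]
  ring

/-- the shifts of the lower entries -/
def sh (q0 : Fin 3 → ℤ) : Fin 6 → ℝ := ![(q0 0 : ℝ), 0, (q0 0 : ℝ), (q0 2 : ℝ), (q0 1 : ℝ),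
  (q0 2 : ℝ) + (q0 1 : ℝ)]

theorem lf_shift (v : Fin 4 → ℂ) (q0 : Fin 3 → ℤ) (N : ℕ) (i : Fin 6) :
    lf ![v 0 - q0 0 / N, v 1 - q0 1 / N, v 2 - q0 2 / N, v 3] i = lf v i - (sh q0 i : ℝ) / N := by
  fin_cases i <;> simp [lf, sh] <;> ring

theorem an_lf (i : Fin 6) (U : Set ((Fin 4 → ℂ) × ℂ)) :
    AnalyticOnNhd ℂ (fun p : (Fin 4 → ℂ) × ℂ => lf p.1 i) U := by
  have hp : ∀ k : Fin 4, AnalyticOnNhd ℂ (fun p : (Fin 4 → ℂ) × ℂ => p.1 k) U := fun k p _ =>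
    ((ContinuousLinearMap.proj (R := ℂ) (φ := fun _ : Fin 4 => ℂ) k).comp
      (ContinuousLinearMap.fst ℂ (Fin 4 → ℂ) ℂ)).analyticAt p
  fin_cases i
  · exact hp 0
  · exact hp 3
  · exact (hp 0).add (hp 3)
  · exact hp 2
  · exact (hp 1).sub (hp 3)
  · exact (hp 2).add ((hp 1).sub (hp 3))

theorem an_nz (i : Fin 6) (U : Set ((Fin 4 → ℂ) × ℂ)) :
    AnalyticOnNhd ℂ (fun p : (Fin 4 → ℂ) × ℂ => nz p.2 i) U := by
  unfold nz
  exact analyticOnNhd_const.add ((analyticOnNhd_const.mul analyticOnNhd_snd).div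
    analyticOnNhd_const (fun _ _ => two_ne_zero))

theorem task_PX : S_PX := by
  intro hLC hGAM hGX hUA α r κ K C0 hF hB q0
  obtain ⟨u1, u2, u3, u4, u5⟩ := hUA
  set U : Set ((Fin 4 → ℂ) × ℂ) := Metric.ball (vC α) (r / 2) ×ˢ Metric.ball 0 (r / 2) with hU
  have hr := hB.r0
  have hr1 := hB.r1
  -- the places of the arguments
  have hmem : ∀ p ∈ U, ∀ i, ctr α i ≠ 0 → nz p.2 i ∈ Sd r ∧ 1 - nz p.2 i + lf p.1 i ∈ Sd r ∧
      1 - lf p.1 i ∈ Sd r := by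
    rintro ⟨v, ζ⟩ ⟨hv, hζ⟩ i hi
    have hv' : ‖v - vC α‖ < r / 2 := mem_ball_iff_norm.1 hv
    have hζ' : ‖ζ‖ < r / 2 := by simpa using hζ
    obtain ⟨s1, s2⟩ := hB.sml i hi
    refine args_Sd hr s1 s2 ?_ ?_
    · show ‖nz ζ i - 1 / 2‖ ≤ r / 4
      rw [nz_near]; linarith
    · exact (lf_near hF v i).trans (by linarith)
  have hG : ∀ (s : ℝ) (φ : (Fin 4 → ℂ) × ℂ → ℂ), AnalyticOnNhd ℂ φ U → Set.MapsTo φ U (Sd r) →
      UA (fun N p => Gt s N (φ p)) U := fun s φ h1 h2 =>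
    u2 _ _ (fun N x => Gm N (x + s / N) * Complex.exp (-(N * LC x))) φ U (Sd r)
      (hGX hLC hGAM r hr s) h1 h2
  -- the factors
  obtain ⟨F, hFd⟩ : ∃ F : Fin 6 → ℕ → (Fin 4 → ℂ) × ℂ → ℂ, F = fun i N p =>
      if ctr α i = 0 then 1 else Gt 0 N (nz p.2 i) *
        (Gt (-(sh q0 i)) N (1 - nz p.2 i + lf p.1 i) * Gt (sh q0 i - 1 / 2) N (1 - lf p.1 i)) :=
    ⟨_, rfl⟩
  have hFU : ∀ i, UA (F i) U := by
    intro i
    rw [hFd]
    by_cases h : ctr α i = 0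
    · simp only [if_pos h]
      exact u3 _ (fun _ => 1) U 1 analyticOnNhd_const (by simp)
    · simp only [if_neg h]
      refine u1 _ _ _ _ (hG 0 _ (an_nz i U) fun p hp => (hmem p hp i h).1)
        (u1 _ _ _ _ (hG _ _ ?_ fun p hp => (hmem p hp i h).2.1)
        (hG _ _ ?_ fun p hp => (hmem p hp i h).2.2))
      · exact (analyticOnNhd_const.sub (an_nz i U)).add (an_lf i U)
      · exact analyticOnNhd_const.sub (an_lf i U)
  have hprod : UA (fun N p => ∏ i ∈ Finset.univ, F i N p) U :=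
    u5 _ _ Finset.univ F U fun i _ => hFU i
  refine u4 _ _ _ U hprod fun k => ⟨0, ?_⟩
  -- the equality for large `N`
  obtain ⟨M, hM⟩ : ∃ M : ℝ, M = ∑ i, (|sh q0 i| + 1) := ⟨_, rfl⟩
  have hlim : ∀ᶠ N : ℕ in atTop, M / N ≤ r := by
    have : Tendsto (fun N : ℕ => M / (N : ℝ)) atTop (𝓝 0) := tendsto_const_div_atTop_nhds_zero_nat _
    filter_upwards [this.eventually_lt_const hr] with N hN using hN.le
  filter_upwards [hlim, eventually_ge_atTop 1] with N hN hN1 p hp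
  have hNr : (0 : ℝ) < N := by exact_mod_cast hN1
  have hsi : ∀ i, (|sh q0 i| + 1) / N ≤ r := by
    intro i
    refine (div_le_div_of_nonneg_right ?_ hNr.le).trans hN
    rw [hM]
    exact Finset.single_le_sum (f := fun i => |sh q0 i| + 1)
      (fun j _ => by positivity) (Finset.mem_univ i)
  have e : Am N α q0 p.1 p.2 = ∏ i ∈ Finset.univ, F i N p := by
    unfold Am PB PE na
    rw [← Finset.prod_pow_eq_pow_sum, Finset.mul_sum, ← Finset.sum_neg_distrib, Complex.exp_sum,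
      ← Finset.prod_mul_distrib, ← Finset.prod_mul_distrib, hFd]
    refine Finset.prod_congr rfl fun i _ => ?_
    by_cases h : ctr α i = 0
    · simp only [if_pos h]
      simp
    · simp only [if_neg h, pow_one]
      rw [lf_shift]
      obtain ⟨m1, m2, m3⟩ := hmem p hp i h
      exact br_eq hLC hGAM hr hN1 m1 m2 m3 (hsi i)
  rw [e, sub_self, norm_zero, zero_div]

end Pool.Agent.Q202.HX2
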